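import Pool.Agent.Lib.MP_703902_co.Proof

/-!
MP_703902_co: an infinite vertex-transitive graph all of whose vertices are `0`-positive.
-/

namespace Pool.Agent.Results.MP_703902_co.LadderZeroPositive

open Pool.Agent.Lib.MP_703902_co

/-- **Main result.**  There is an infinite (countable), connected, vertex-transitive graph of
bounded degree in which every vertex is `0`-positive. -/
theorem result : ∃ (V : Type) (G : SimpleGraph V), Infinite V ∧ Countable V ∧ G.Connected ∧
    (∃ D : ℕ, ∀ v, (G.neighborSet v).Finite ∧ (G.neighborSet v).ncard ≤ D) ∧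
    VertexTransitive G ∧ ∀ u, ZeroPositive G u := by
  refine ⟨ℤ × Bool, ladder, Prod.infinite_of_left, inferInstance, ladder_connected,
    ⟨3, fun v => ?_⟩, ladder_transitive, ladder_zeroPositive⟩
  have h : ladder.neighborSet v = (nb v : Set (ℤ × Bool)) := by
    ext w
    simp [mem_nb]
  rw [h]
  exact ⟨(nb v).finite_toSet, by rw [Set.ncard_coe_finset]; exact card_nb v⟩

end Pool.Agent.Results.MP_703902_co.LadderZeroPositive
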